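import Pool.Agent.Helper17.Sign.Traces

namespace Pool.Agent.Helper29.CPB

open Polynomial Module

variable {F V : Type*} [Field F] [CharZero F] [AddCommGroup V] [Module F V] [FiniteDimensional F V]

lemma rational_charpoly' (f : Module.End F V)
    (ht : ∀ n, 1 ≤ n → ∃ q : ℚ, LinearMap.trace F V (f ^ n) = (q : F)) :
    ∃ p : ℚ[X], p.map (algebraMap ℚ F) = f.charpoly := by
  refine Pool.Agent.Helper17.Sign.rational_charpoly f (0 : Module.End F PUnit) ?_ ?_
  · have h1 : (0 : Module.End F PUnit).charpoly = 1 := by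
      have h2 := (0 : Module.End F PUnit).charpoly_monic
      have h3 : (0 : Module.End F PUnit).charpoly.natDegree = 0 := by
        rw [LinearMap.charpoly_natDegree]; exact finrank_zero_of_subsingleton
      exact h2.natDegree_eq_zero.mp h3
    rw [h1]; exact isCoprime_one_right
  · intro n hn
    obtain ⟨q, hq⟩ := ht n hn
    refine ⟨q, ?_⟩
    have : (0 : Module.End F PUnit) ^ n = 0 := by
      rw [zero_pow (by omega)]
    rw [this, hq]; simp

/-- A non-nilpotent endomorphism all of whose powers have rational traces has a nonzero idempotent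
which is a rational polynomial without constant term in it. -/
lemma exists_idem (y : Module.End F V)
    (ht : ∀ n, 1 ≤ n → ∃ q : ℚ, LinearMap.trace F V (y ^ n) = (q : F)) (hn : ¬ IsNilpotent y) :
    ∃ e : ℚ[X], (aeval y (e.map (algebraMap ℚ F)) * y) * (aeval y (e.map (algebraMap ℚ F)) * y) =
      aeval y (e.map (algebraMap ℚ F)) * y ∧ aeval y (e.map (algebraMap ℚ F)) * y ≠ 0 := by
  obtain ⟨p, hp⟩ := rational_charpoly' y ht
  have hp0 : p ≠ 0 := by
    rintro rfl
    rw [Polynomial.map_zero] at hp
    exact y.charpoly_monic.ne_zero hp.symm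
  obtain ⟨ψ, hψ, hψ0⟩ := Polynomial.exists_eq_pow_rootMultiplicity_mul_and_not_dvd p hp0 0
  rw [C_0, sub_zero] at hψ hψ0
  set m := p.rootMultiplicity 0 with hm
  have hco : IsCoprime (X ^ (m + 1) : ℚ[X]) ψ := by
    apply IsCoprime.pow_left
    exact (Polynomial.prime_X.irreducible.coprime_iff_not_dvd).mpr hψ0
  obtain ⟨a, b, hab⟩ := hco
  have hchar : aeval y (p.map (algebraMap ℚ F)) = 0 := by
    rw [hp]; exact LinearMap.aeval_self_charpoly y
  set φ : ℚ[X] → Module.End F V := fun q => aeval y (q.map (algebraMap ℚ F)) with hφ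
  have hmul : ∀ q r, φ (q * r) = φ q * φ r := fun q r => by simp [hφ, Polynomial.map_mul]
  have hsub : ∀ q r, φ (q - r) = φ q - φ r := fun q r => by simp [hφ, Polynomial.map_sub]
  have hadd : ∀ q r, φ (q + r) = φ q + φ r := fun q r => by simp [hφ, Polynomial.map_add]
  have hX : φ X = y := by simp [hφ]
  have h1 : φ 1 = 1 := by simp [hφ]
  have hg : aeval y ((a * X ^ m).map (algebraMap ℚ F)) * y = φ (a * X ^ (m + 1)) := by
    rw [pow_succ, ← mul_assoc, hmul (a * X ^ m) X, hX]
  refine ⟨a * X ^ m, ?_, ?_⟩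
  · rw [hg, ← hmul]
    rw [← sub_eq_zero, ← hsub]
    have e1 : a * X ^ (m + 1) * (a * X ^ (m + 1)) - a * X ^ (m + 1) = -(a * X * b) * p := by
      linear_combination (a * X ^ (m + 1)) * hab + (a * X * b) * hψ
    rw [e1, hmul]
    show φ _ * aeval y (p.map (algebraMap ℚ F)) = 0
    rw [hchar, mul_zero]
  · rw [hg]
    intro h0
    apply hn
    refine ⟨m, ?_⟩
    have e1 : φ (b * ψ) = 1 := by
      have := congrArg φ hab
      rw [hadd, h0, zero_add, h1] at this
      exact this
    have e2 : φ (X ^ m) = y ^ m := by simp [hφ]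
    have e3 : b * ψ * X ^ m = b * p := by
      linear_combination (-b) * hψ
    calc y ^ m = φ (b * ψ) * φ (X ^ m) := by rw [e1, one_mul, e2]
      _ = φ (b * p) := by rw [← hmul, e3]
      _ = 0 := by
        rw [hmul]
        show φ _ * aeval y (p.map (algebraMap ℚ F)) = 0
        rw [hchar, mul_zero]

omit [CharZero F] in
lemma trace_idem (e : Module.End F V) (he : e * e = e) :
    LinearMap.trace F V e = (finrank F (LinearMap.range e) : F) := by
  have h : IsIdempotentElem e := he
  exact (LinearMap.IsIdempotentElem.isProj_range e h).trace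

lemma idem_eq_zero_of_trace (e : Module.End F V) (he : e * e = e)
    (ht : LinearMap.trace F V e = 0) : e = 0 := by
  rw [trace_idem e he] at ht
  have h1 : finrank F (LinearMap.range e) = 0 := by exact_mod_cast ht
  rw [Submodule.finrank_eq_zero] at h1
  exact LinearMap.range_eq_bot.mp h1

end Pool.Agent.Helper29.CPB
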