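import Pool.Agent.Helper29.CPB.Graded
import Pool.Agent.Helper76.CPB.Nil
import Pool.Agent.Helper64.CPB.Converse
import Pool.Agent.Helper89.CPB.Generator
import Pool.Agent.Helper89.CPB.SectionHalf
import Pool.Agent.Helper91.CPB.LocalConverse

/-!
# `C⁺` for one generic section of `X × X` gives `B(X)` in one degree
-/

namespace Pool.Agent.Helper29.CPB

open TensorProduct

universe u v

variable {F : Type u} [Field F] [CharZero F]

/-- `L^c` has an algebraic left inverse on all `H^j(X)`, `j ≤ dim X - c`, if `L^(2c-1)` has an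
algebraic partial inverse on the even cohomology of `X × X`. -/
theorem inverse_of_evenInverse {X Z : Variety.{u, v} F} {τ : (X.H ⊗[F] X.H) ≃ₗ[F] Z.H}
    (hsq : IsSquare X Z τ) (c : ℕ) (hc : 1 ≤ c) (hcn : c ≤ X.dim)
    (h : EvenInverse Z (2 * c - 1)) : ∃ w ∈ X.corr (-c), ∀ j : ℤ, j ≤ X.dim - c →
      ∀ x, X.π j x = x → w ((X.L ^ c) x) = x := by
  obtain ⟨w₀, hw₀, hgen⟩ := exists_generator_corr X c
  have hwL : w₀ * X.L ^ c ∈ X.corr 0 := X.corr_mul' (by ring) hw₀ (X.Lpow_corr c)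
  have ha : 1 - w₀ * X.L ^ c ∈ X.corr 0 := (X.corr 0).sub_mem X.corr_one hwL
  obtain ⟨M, hM⟩ := nil_of_evenInverse hsq c hc hcn h (1 - w₀ * X.L ^ c) ha hgen
  refine ⟨(∑ k ∈ Finset.range M, (1 - w₀ * X.L ^ c) ^ k) * w₀, X.corr_mul' (by ring)
    (X.corr_sum _ _ fun k _ => X.corr_pow_zero ha k) hw₀, ?_⟩
  intro j hj x hx
  have h1 : (∑ k ∈ Finset.range M, (1 - w₀ * X.L ^ c) ^ k) * w₀ * X.L ^ c =
      1 - (1 - w₀ * X.L ^ c) ^ M := by
    rw [← geom_sum_mul_neg, sub_sub_cancel, mul_assoc]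
  rw [← Module.End.mul_apply, h1, LinearMap.sub_apply, hM j hj x hx, sub_zero,
    Module.End.one_apply]

/-- `C⁺` for the generic complete intersection of codimension `2c - 1` in `X × X` gives an algebraic
left inverse of `L^c` on all `H^j(X)`, `j ≤ dim X - c`. -/
theorem inverse_of_cplus {X Z S : Variety.{u, v} F} {τ : (X.H ⊗[F] X.H) ≃ₗ[F] Z.H}
    (hsq : IsSquare X Z τ) (c : ℕ) (hc : 1 ≤ c) (hcn : c ≤ X.dim)
    (G : GenericSection Z S (2 * c - 1)) (h : S.CPlus) :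
    ∃ w ∈ X.corr (-c), ∀ j : ℤ, j ≤ X.dim - c → ∀ x, X.π j x = x → w ((X.L ^ c) x) = x := by
  apply inverse_of_evenInverse hsq c hc hcn
  refine evenInverse_of_cplus G ?_ h
  have h1 := G.dim
  have h2 := hsq.dim
  exact ⟨X.dim - c, by omega⟩

/-- `B(X)` from the algebraic left inverses of the `L^c`, `1 ≤ c ≤ dim X`. -/
theorem lefschetz_of_inverse {X : Variety.{u, v} F}
    (h : ∀ c : ℕ, 1 ≤ c → c ≤ X.dim → ∃ w ∈ X.corr (-c), ∀ j : ℤ, j ≤ X.dim - c →
      ∀ x, X.π j x = x → w ((X.L ^ c) x) = x) : X.Lefschetz := by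
  intro i hi
  by_cases hin : i = X.dim
  · refine ⟨1, by rw [show ((i : ℤ) - X.dim) = 0 by omega]; exact X.corr_one, ?_⟩
    intro x _
    rw [show X.dim - i = 0 by omega, pow_zero, Module.End.one_apply, Module.End.one_apply]
  · obtain ⟨w, hw, hinv⟩ := h (X.dim - i) (by omega) (by omega)
    refine ⟨w, by rwa [show ((i : ℤ) - X.dim) = -((X.dim - i : ℕ) : ℤ) by omega], ?_⟩
    intro x hx
    exact hinv i (by omega) x hx

/-- `B(X)` gives `C⁺` for the generic complete intersections of odd dimension in `X × X`. -/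
theorem cplus_of_lefschetz {X Z S : Variety.{u, v} F} {τ : (X.H ⊗[F] X.H) ≃ₗ[F] Z.H} {s : ℕ}
    (hsq : IsSquare X Z τ) (G : GenericSection Z S s) (hodd : Odd S.dim) (h : X.Lefschetz) :
    S.CPlus :=
  cplus_of_evenInverse G hodd G.restrict G.weak_onto G.weak_mono
    (evenInverse_of_lefschetz Z (lefschetz_square hsq h) s)

end Pool.Agent.Helper29.CPB
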