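import Pool.Agent.Helper29.CPB.Setting

/-!
# Elementary facts on a `Variety`: gradings, powers and polynomials of correspondences
-/

namespace Pool.Agent.Helper29.CPB

open TensorProduct Polynomial

universe u v

variable {F : Type u} [Field F] [CharZero F] (X : Variety.{u, v} F)

namespace Variety

lemma π_mul (i j : ℤ) : X.π i * X.π j = if i = j then X.π i else 0 := by
  split_ifs with h
  · rw [h, X.π_idem]
  · exact X.π_orth i j h

lemma π_apply_idem (i : ℤ) (x : X.H) : X.π i (X.π i x) = X.π i x := by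
  rw [← Module.End.mul_apply, X.π_idem]

/-- two operators agreeing on all degrees are equal -/
lemma ext_graded {f g : Module.End F X.H} (h : ∀ i : ℤ, f * X.π i = g * X.π i) : f = g := by
  have h1 : f * (∑ i ∈ Finset.Icc (0 : ℤ) (2 * X.dim), X.π i) =
      g * (∑ i ∈ Finset.Icc (0 : ℤ) (2 * X.dim), X.π i) := by
    rw [Finset.mul_sum, Finset.mul_sum]
    exact Finset.sum_congr rfl fun i _ => h i
  rw [X.π_sum, mul_one, mul_one] at h1
  exact h1

lemma ext_graded_left {f g : Module.End F X.H} (h : ∀ i : ℤ, X.π i * f = X.π i * g) : f = g := by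
  have h1 : (∑ i ∈ Finset.Icc (0 : ℤ) (2 * X.dim), X.π i) * f =
      (∑ i ∈ Finset.Icc (0 : ℤ) (2 * X.dim), X.π i) * g := by
    rw [Finset.sum_mul, Finset.sum_mul]
    exact Finset.sum_congr rfl fun i _ => h i
  rw [X.π_sum, one_mul, one_mul] at h1
  exact h1

/-- two operators agreeing on homogeneous vectors are equal -/
lemma ext_homog {f g : Module.End F X.H} (h : ∀ (i : ℤ) (x : X.H), X.π i x = x → f x = g x) :
    f = g := by
  apply X.ext_graded
  intro i
  ext x
  exact h i (X.π i x) (X.π_apply_idem i x)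

lemma eq_zero_of_forall_π {x : X.H} (h : ∀ i, X.π i x = 0) : x = 0 := by
  have h1 : (∑ i ∈ Finset.Icc (0 : ℤ) (2 * X.dim), X.π i) x = 0 := by
    rw [LinearMap.sum_apply]
    exact Finset.sum_eq_zero fun i _ => h i
  rw [X.π_sum] at h1
  exact h1

lemma corr_deg_apply {r : ℤ} {f : Module.End F X.H} (hf : f ∈ X.corr r) (i : ℤ) (x : X.H) :
    f (X.π i x) = X.π (i + 2 * r) (f x) := by
  have := congrArg (fun g => g x) (X.corr_deg r f hf i)
  exact this

/-- an operator of degree `r` maps `H^i` to `H^(i+2r)` -/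
lemma corr_homog {r : ℤ} {f : Module.End F X.H} (hf : f ∈ X.corr r) {i j : ℤ} (hj : j = i + 2 * r)
    {x : X.H} (hx : X.π i x = x) : X.π j (f x) = f x := by
  subst hj
  rw [← X.corr_deg_apply hf, hx]

lemma homog_zero {i : ℤ} (hi : i < 0 ∨ 2 * (X.dim : ℤ) < i) {x : X.H} (hx : X.π i x = x) :
    x = 0 := by
  rw [← hx, X.π_out i hi, LinearMap.zero_apply]

lemma π_apply_ne {i j : ℤ} (hij : i ≠ j) {x : X.H} (hx : X.π j x = x) : X.π i x = 0 := by
  rw [← hx, ← Module.End.mul_apply, X.π_orth i j hij, LinearMap.zero_apply]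

lemma corr_pow {r : ℤ} {f : Module.End F X.H} (hf : f ∈ X.corr r) (k : ℕ) :
    f ^ k ∈ X.corr (k * r) := by
  induction k with
  | zero => simpa using X.corr_one
  | succ k ih =>
    rw [pow_succ]
    have := X.corr_mul _ _ _ _ ih hf
    rwa [show ((k : ℤ) * r + r) = ((k + 1 : ℕ) : ℤ) * r by push_cast; ring] at this

lemma Lpow_corr (k : ℕ) : X.L ^ k ∈ X.corr (k : ℤ) := by
  simpa using X.corr_pow X.L_corr k

lemma corr_mul' {r s t : ℤ} (h : t = r + s) {f g : Module.End F X.H} (hf : f ∈ X.corr r)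
    (hg : g ∈ X.corr s) : f * g ∈ X.corr t := by
  subst h
  exact X.corr_mul r s f g hf hg

lemma corr_pow_zero {f : Module.End F X.H} (hf : f ∈ X.corr 0) (k : ℕ) : f ^ k ∈ X.corr 0 := by
  simpa using X.corr_pow hf k

lemma corr_aeval {f : Module.End F X.H} (hf : f ∈ X.corr 0) (e : ℚ[X]) :
    aeval f (e.map (algebraMap ℚ F)) ∈ X.corr 0 := by
  induction e using Polynomial.induction_on' with
  | add p q hp hq =>
    rw [Polynomial.map_add, map_add]
    exact (X.corr 0).add_mem hp hq
  | monomial n a =>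
    rw [Polynomial.map_monomial, aeval_monomial]
    have h1 : (algebraMap F (Module.End F X.H)) ((algebraMap ℚ F) a) * f ^ n =
        ((a : ℚ) : F) • f ^ n := by
      rw [← Algebra.smul_def]; rfl
    rw [h1]
    exact X.corr_smul a 0 _ (X.corr_pow_zero hf n)

lemma corr_sum {ι : Type*} {r : ℤ} (t : Finset ι) (f : ι → Module.End F X.H)
    (h : ∀ a ∈ t, f a ∈ X.corr r) : ∑ a ∈ t, f a ∈ X.corr r :=
  (X.corr r).sum_mem h

/-- the even projector on homogeneous elements -/
lemma evenPart_apply {i : ℤ} {x : X.H} (hx : X.π i x = x) :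
    (∑ j ∈ (Finset.Icc (0 : ℤ) (2 * X.dim)).filter Even, X.π j) x = if Even i then x else 0 := by
  rw [LinearMap.sum_apply]
  by_cases hi : i ∈ Finset.Icc (0 : ℤ) (2 * X.dim)
  · split_ifs with he
    · rw [Finset.sum_eq_single i]
      · exact hx
      · intro j _ hji
        exact X.π_apply_ne hji hx
      · intro h
        exact absurd (Finset.mem_filter.mpr ⟨hi, he⟩) h
    · apply Finset.sum_eq_zero
      intro j hj
      apply X.π_apply_ne _ hx
      rintro rfl
      exact he (Finset.mem_filter.mp hj).2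
  · have h0 : x = 0 := X.homog_zero (by
      rw [Finset.mem_Icc, not_and_or] at hi; omega) hx
    subst h0
    simp

lemma sgn_apply {i : ℤ} {x : X.H} (hx : X.π i x = x) : X.sgn x = ((-1 : F) ^ i.natAbs) • x := by
  unfold sgn
  rw [LinearMap.sum_apply]
  by_cases hi : i ∈ Finset.Icc (0 : ℤ) (2 * X.dim)
  · rw [Finset.sum_eq_single i]
    · rw [LinearMap.smul_apply, hx]
    · intro j _ hji
      rw [LinearMap.smul_apply, X.π_apply_ne hji hx, smul_zero]
    · intro h
      exact absurd hi h
  · have h0 : x = 0 := X.homog_zero (by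
      rw [Finset.mem_Icc, not_and_or] at hi; omega) hx
    subst h0
    simp

lemma sgn_mul_sgn : X.sgn * X.sgn = 1 := by
  apply X.ext_homog
  intro i x hx
  rw [Module.End.mul_apply, X.sgn_apply hx, map_smul, X.sgn_apply hx, smul_smul,
    Module.End.one_apply, ← mul_pow, neg_one_mul, neg_neg, one_pow, one_smul]

end Variety

end Pool.Agent.Helper29.CPB
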