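import Pool.Agent.Helper29.CPB.Graded

/-!
# Blocks of Lefschetz strings: splitting off a summand
-/

namespace Pool.Agent.Helper29.CPB

open TensorProduct

universe u v

variable {F : Type u} [Field F] [CharZero F]

/-- `R` is supported on the degrees `i, i+2, ..., 2 dim - i`. -/
def Supp (X : Variety.{u, v} F) (i : ℕ) (R : Module.End F X.H) : Prop :=
  ∀ j : ℤ, ¬ (Even (j - i) ∧ (i : ℤ) ≤ j ∧ j ≤ 2 * X.dim - i) → R * X.π j = 0

/-- `∑ L^a ϑ L^(w-a)` -/
noncomputable def blockF (X : Variety.{u, v} F) (ϑ : Module.End F X.H) (w : ℕ) :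
    Module.End F X.H :=
  ∑ a ∈ Finset.range (w + 1), X.L ^ a * ϑ * X.L ^ (w - a)

section

variable {X : Variety.{u, v} F} {i w : ℕ} {R ϑ : Module.End F X.H}

lemma comm_Lpow (hL : R * X.L = X.L * R) (k : ℕ) : R * X.L ^ k = X.L ^ k * R :=
  (show Commute R X.L from hL).pow_right k

lemma comm_π (hR : R ∈ X.corr 0) (j : ℤ) : R * X.π j = X.π j * R := by
  have := X.corr_deg 0 R hR j
  simpa using this

lemma Lpow_succ_mul (hi : i + w = X.dim) (hL : R * X.L = X.L * R)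
    (supp : Supp X i R) : X.L ^ (w + 1) * R = 0 := by
  apply X.ext_graded
  intro j
  rw [zero_mul]
  by_cases hj : Even (j - i) ∧ (i : ℤ) ≤ j ∧ j ≤ 2 * X.dim - i
  · rw [← comm_Lpow hL, mul_assoc, X.corr_deg _ _ (X.Lpow_corr (w + 1)), ← mul_assoc, supp _ _,
      zero_mul]
    rintro ⟨_, _, h3⟩
    push_cast at h3
    omega
  · rw [mul_assoc, supp j hj, mul_zero]

lemma Lpow_mul_π (hi : i + w = X.dim) (hL : R * X.L = X.L * R)
    (supp : Supp X i R) (j : ℤ) (hji : j ≠ i) : X.L ^ w * R * X.π j = 0 := by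
  by_cases hj : Even (j - i) ∧ (i : ℤ) ≤ j ∧ j ≤ 2 * X.dim - i
  · rw [← comm_Lpow hL, mul_assoc, X.corr_deg _ _ (X.Lpow_corr w), ← mul_assoc, supp _ _,
      zero_mul]
    rintro ⟨_, _, h3⟩
    omega
  · rw [mul_assoc, supp j hj, mul_zero]

lemma theta_mul_π (hi : i + w = X.dim) (supp : Supp X i R) (hϑ : ϑ ∈ X.corr (-w))
    (h1 : R * ϑ = ϑ) (h2 : ϑ * R = ϑ) (k : ℤ) (hk : k ≠ 2 * X.dim - i) : ϑ * X.π k = 0 := by
  by_cases hj : Even (k - i) ∧ (i : ℤ) ≤ k ∧ k ≤ 2 * X.dim - i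
  · rw [← h1, mul_assoc, X.corr_deg _ _ hϑ, ← mul_assoc, supp _ _, zero_mul]
    rintro ⟨_, h3, _⟩
    omega
  · rw [← h2, mul_assoc, supp k hj, mul_zero]

lemma theta_Lpow_theta (hi : i + w = X.dim) (supp : Supp X i R) (hϑ : ϑ ∈ X.corr (-w))
    (h1 : R * ϑ = ϑ) (h2 : ϑ * R = ϑ) (c : ℕ) (hc : c ≠ w) : ϑ * X.L ^ c * ϑ = 0 := by
  apply X.ext_graded
  intro k
  rw [zero_mul]
  by_cases hk : k = 2 * X.dim - i
  · rw [mul_assoc, X.corr_deg _ _ hϑ, mul_assoc, ← mul_assoc (X.L ^ c),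
      X.corr_deg _ _ (X.Lpow_corr c), ← mul_assoc, ← mul_assoc,
      theta_mul_π hi supp hϑ h1 h2 _ _, zero_mul, zero_mul]
    omega
  · rw [mul_assoc, theta_mul_π hi supp hϑ h1 h2 k hk, mul_zero]

lemma blockF_mem (hϑ : ϑ ∈ X.corr (-w)) : blockF X ϑ w ∈ X.corr 0 := by
  apply X.corr_sum
  intro a ha
  rw [Finset.mem_range] at ha
  apply X.corr_mul' (r := (a : ℤ) - w) (s := ((w - a : ℕ) : ℤ)) _ _ (X.Lpow_corr _)
  · omega
  · exact X.corr_mul' (by ring) (X.Lpow_corr a) hϑ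

lemma blockF_idem (hi : i + w = X.dim) (supp : Supp X i R) (hϑ : ϑ ∈ X.corr (-w))
    (h1 : R * ϑ = ϑ) (h2 : ϑ * R = ϑ) (h3 : ϑ * X.L ^ w * ϑ = ϑ) :
    blockF X ϑ w * blockF X ϑ w = blockF X ϑ w := by
  have key : ∀ a ∈ Finset.range (w + 1), ∀ b ∈ Finset.range (w + 1),
      (X.L ^ a * ϑ * X.L ^ (w - a)) * (X.L ^ b * ϑ * X.L ^ (w - b)) =
        if b = a then X.L ^ a * ϑ * X.L ^ (w - a) else 0 := by
    intro a ha b hb
    rw [Finset.mem_range] at ha hb
    have e1 : (X.L ^ a * ϑ * X.L ^ (w - a)) * (X.L ^ b * ϑ * X.L ^ (w - b)) =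
        X.L ^ a * (ϑ * X.L ^ (w - a + b) * ϑ) * X.L ^ (w - b) := by
      rw [pow_add]; simp only [mul_assoc]
    rw [e1]
    split_ifs with hba
    · subst hba
      rw [show w - b + b = w by omega, h3]
    · rw [theta_Lpow_theta hi supp hϑ h1 h2 _ (by omega), mul_zero, zero_mul]
  unfold blockF
  rw [Finset.sum_mul_sum]
  apply Finset.sum_congr rfl
  intro a ha
  rw [Finset.sum_congr rfl (key a ha), Finset.sum_ite_eq', if_pos ha]

lemma blockF_comm (hi : i + w = X.dim) (hL : R * X.L = X.L * R) (supp : Supp X i R)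
    (h1 : R * ϑ = ϑ) (h2 : ϑ * R = ϑ) : blockF X ϑ w * X.L = X.L * blockF X ϑ w := by
  have e1 : X.L ^ (w + 1) * ϑ = 0 := by
    rw [← h1, ← mul_assoc, Lpow_succ_mul hi hL supp, zero_mul]
  have e2 : ϑ * X.L ^ (w + 1) = 0 := by
    rw [← h2, mul_assoc, comm_Lpow hL, Lpow_succ_mul hi hL supp, mul_zero]
  unfold blockF
  rw [Finset.sum_mul, Finset.mul_sum, Finset.sum_range_succ', Finset.sum_range_succ (n := w)]
  have e3 : X.L ^ 0 * ϑ * X.L ^ (w - 0) * X.L = 0 := by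
    rw [pow_zero, one_mul, Nat.sub_zero, mul_assoc, ← pow_succ, e2]
  have e4 : X.L * (X.L ^ w * ϑ * X.L ^ (w - w)) = 0 := by
    rw [Nat.sub_self, pow_zero, mul_one, ← mul_assoc, ← pow_succ', e1]
  rw [e3, e4, add_zero, add_zero]
  apply Finset.sum_congr rfl
  intro a ha
  rw [Finset.mem_range] at ha
  rw [mul_assoc, ← pow_succ, show w - (a + 1) + 1 = w - a by omega, pow_succ' X.L a]
  simp only [mul_assoc]

lemma mul_blockF (hL : R * X.L = X.L * R) (h1 : R * ϑ = ϑ) :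
    R * blockF X ϑ w = blockF X ϑ w := by
  unfold blockF
  rw [Finset.mul_sum]
  apply Finset.sum_congr rfl
  intro a _
  rw [← mul_assoc, ← mul_assoc, comm_Lpow hL, mul_assoc (X.L ^ a), h1]

lemma blockF_mul (hL : R * X.L = X.L * R) (h2 : ϑ * R = ϑ) :
    blockF X ϑ w * R = blockF X ϑ w := by
  unfold blockF
  rw [Finset.sum_mul]
  apply Finset.sum_congr rfl
  intro a _
  rw [mul_assoc, ← comm_Lpow hL, ← mul_assoc, mul_assoc (X.L ^ a), h2]

lemma blockF_mul_theta (hi : i + w = X.dim) (supp : Supp X i R) (hϑ : ϑ ∈ X.corr (-w))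
    (h1 : R * ϑ = ϑ) (h2 : ϑ * R = ϑ) (h3 : ϑ * X.L ^ w * ϑ = ϑ) : blockF X ϑ w * ϑ = ϑ := by
  unfold blockF
  rw [Finset.sum_mul, Finset.sum_eq_single 0]
  · rw [pow_zero, one_mul, Nat.sub_zero, h3]
  · intro a ha ha0
    rw [Finset.mem_range] at ha
    rw [mul_assoc, mul_assoc, ← mul_assoc ϑ, theta_Lpow_theta hi supp hϑ h1 h2 _ (by omega),
      mul_zero]
  · intro h
    exact absurd (Finset.mem_range.mpr (by omega)) h

lemma theta_mul_blockF (hi : i + w = X.dim) (supp : Supp X i R) (hϑ : ϑ ∈ X.corr (-w))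
    (h1 : R * ϑ = ϑ) (h2 : ϑ * R = ϑ) (h3 : ϑ * X.L ^ w * ϑ = ϑ) : ϑ * blockF X ϑ w = ϑ := by
  unfold blockF
  rw [Finset.mul_sum, Finset.sum_eq_single w]
  · rw [Nat.sub_self, pow_zero, mul_one, ← mul_assoc, h3]
  · intro a ha ha0
    rw [← mul_assoc, ← mul_assoc, theta_Lpow_theta hi supp hϑ h1 h2 _ (by omega),
      zero_mul]
  · intro h
    exact absurd (Finset.mem_range.mpr (by omega)) h

/-- on the degree `j = i + 2a`, the operator `blockF` is `L^a ϑ L^(w-a)` -/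
lemma blockF_apply (hi : i + w = X.dim) (supp : Supp X i R) (hϑ : ϑ ∈ X.corr (-w))
    (h1 : R * ϑ = ϑ) (h2 : ϑ * R = ϑ) (a : ℕ) (ha : a ≤ w) {x : X.H}
    (hx : X.π (i + 2 * a : ℕ) x = x) :
    blockF X ϑ w x = (X.L ^ a * ϑ * X.L ^ (w - a)) x := by
  unfold blockF
  rw [LinearMap.sum_apply, Finset.sum_eq_single a]
  · intro b hb hba
    rw [Finset.mem_range] at hb
    have e1 : ϑ ((X.L ^ (w - b)) x) = 0 := by
      have e2 : X.π ((i + 2 * a : ℕ) + 2 * ((w - b : ℕ) : ℤ)) ((X.L ^ (w - b)) x) =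
          (X.L ^ (w - b)) x := X.corr_homog (X.Lpow_corr (w - b)) rfl hx
      rw [← e2, ← Module.End.mul_apply, theta_mul_π hi supp hϑ h1 h2 _ (by omega),
        LinearMap.zero_apply]
    rw [Module.End.mul_apply, Module.End.mul_apply, e1, map_zero]
  · intro h
    exact absurd (Finset.mem_range.mpr (by omega)) h

end

/-- The induction: `R` cuts out the strings starting in degree `i` or higher, all the lower strings
of this parity are algebraically split. -/
structure Block (X : Variety.{u, v} F) (i : ℕ) (R : Module.End F X.H) : Prop where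
  mem : R ∈ X.corr 0
  idem : R * R = R
  comm : R * X.L = X.L * R
  supp : Supp X i R
  inv : ∀ j : ℕ, j ≤ X.dim → Even ((j : ℤ) - i) → ∃ θ ∈ X.corr ((j : ℤ) - X.dim),
    ∀ x, X.π j x = x → θ ((X.L ^ (X.dim - j)) x) = x - R x

lemma Block.step_mid {X : Variety.{u, v} F} {i : ℕ} {R : Module.End F X.H} (B : Block X i R)
    (hi : i = X.dim) : Block X (i + 2) 0 := by
  refine ⟨(X.corr 0).zero_mem, by simp, by simp, fun j _ => by simp, ?_⟩
  intro j hj hev
  obtain ⟨θ, hθ, hinv⟩ := B.inv j hj (by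
    have : ((j : ℤ) - i) = ((j : ℤ) - (i + 2 : ℕ)) + 2 := by push_cast; ring
    rw [this]; exact hev.add even_two)
  by_cases hjn : j = X.dim
  · refine ⟨θ + R, (X.corr _).add_mem hθ (by
      rw [show ((j : ℤ) - X.dim) = 0 by omega]; exact B.mem), ?_⟩
    intro x hx
    have h1 := hinv x hx
    rw [show X.dim - j = 0 by omega, pow_zero, Module.End.one_apply] at h1 ⊢
    rw [LinearMap.add_apply, h1, LinearMap.zero_apply]
    abel
  · refine ⟨θ, hθ, ?_⟩
    intro x hx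
    rw [hinv x hx, LinearMap.zero_apply]
    have h2 : R x = 0 := by
      rw [← hx, ← Module.End.mul_apply, B.supp _ (by omega), LinearMap.zero_apply]
    rw [h2]

/-- the step: if `R - blockF ϑ` kills `H^i`, the next block is `R - blockF ϑ` -/
lemma Block.step {X : Variety.{u, v} F} {i w : ℕ} {R ϑ : Module.End F X.H} (B : Block X i R)
    (hi : i + w = X.dim) (hϑ : ϑ ∈ X.corr (-w))
    (h1 : R * ϑ = ϑ) (h2 : ϑ * R = ϑ) (h3 : ϑ * X.L ^ w * ϑ = ϑ)
    (hkill : ∀ x, X.π i x = x → (R - blockF X ϑ w) x = 0) :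
    Block X (i + 2) (R - blockF X ϑ w) := by
  have hcomm : (R - blockF X ϑ w) * X.L = X.L * (R - blockF X ϑ w) := by
    rw [sub_mul, mul_sub, B.comm, blockF_comm hi B.comm B.supp h1 h2]
  have hsupp : Supp X i (R - blockF X ϑ w) := by
    intro j hj
    rw [sub_mul, ← blockF_mul (w := w) B.comm h2, mul_assoc, B.supp j hj, mul_zero, sub_zero]
  have hki : (R - blockF X ϑ w) * X.π i = 0 := by
    ext x
    exact hkill _ (X.π_apply_idem i x)
  have hki' : (R - blockF X ϑ w) * X.π (2 * X.dim - i) = 0 := by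
    ext x
    rw [Module.End.mul_apply, LinearMap.zero_apply]
    obtain ⟨z, hz, hz2⟩ := X.hard_surj i (by omega) _ (X.π_apply_idem (2 * X.dim - i) x)
    rw [← hz2, ← Module.End.mul_apply, comm_Lpow hcomm, Module.End.mul_apply, hkill z hz, map_zero]
  refine ⟨(X.corr 0).sub_mem B.mem (blockF_mem hϑ), ?_, hcomm, ?_, ?_⟩
  · rw [sub_mul, mul_sub, mul_sub, B.idem, mul_blockF B.comm h1, blockF_mul B.comm h2,
      blockF_idem hi B.supp hϑ h1 h2 h3, sub_self, sub_zero]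
  · intro j hj
    by_cases h : j = i
    · rw [h, hki]
    · by_cases h' : j = 2 * X.dim - i
      · rw [h', hki']
      · apply hsupp
        rintro ⟨hev, hji, hji'⟩
        apply hj
        obtain ⟨t, ht⟩ := hev
        refine ⟨⟨t - 1, by push_cast; omega⟩, by push_cast; omega, by push_cast; omega⟩
  · intro j hj hev
    have hev' : Even ((j : ℤ) - i) := by
      have : ((j : ℤ) - i) = ((j : ℤ) - (i + 2 : ℕ)) + 2 := by push_cast; ring
      rw [this]; exact hev.add even_two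
    obtain ⟨θ, hθ, hinv⟩ := B.inv j hj hev'
    by_cases hji : j < i
    · refine ⟨θ, hθ, ?_⟩
      intro x hx
      rw [hinv x hx]
      have h4 : R x = 0 := by
        rw [← hx, ← Module.End.mul_apply, B.supp _ (by omega), LinearMap.zero_apply]
      have h5 : (R - blockF X ϑ w) x = 0 := by
        rw [← hx, ← Module.End.mul_apply, hsupp _ (by omega), LinearMap.zero_apply]
      rw [h4, h5]
    · obtain ⟨t, ht⟩ := hev'
      obtain ⟨a, rfl⟩ : ∃ a : ℕ, t = a := ⟨t.toNat, by omega⟩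
      obtain rfl : j = i + 2 * a := by omega
      refine ⟨θ + X.L ^ a * ϑ * X.L ^ a, (X.corr _).add_mem hθ ?_, ?_⟩
      · exact X.corr_mul' (r := (a : ℤ) - w) (by omega)
          (X.corr_mul' (by ring) (X.Lpow_corr a) hϑ) (X.Lpow_corr a)
      · intro x hx
        rw [LinearMap.add_apply, hinv x hx, LinearMap.sub_apply,
          blockF_apply hi B.supp hϑ h1 h2 a (by omega) hx]
        have h6 : (X.L ^ a * ϑ * X.L ^ a) ((X.L ^ (X.dim - (i + 2 * a))) x) =
            (X.L ^ a * ϑ * X.L ^ (w - a)) x := by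
          rw [← Module.End.mul_apply, mul_assoc, ← pow_add,
            show a + (X.dim - (i + 2 * a)) = w - a by omega]
        rw [h6]
        abel

end Pool.Agent.Helper29.CPB
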