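import Pool.Agent.Helper29.CPB.Block

/-!
# The induction over the blocks
-/

namespace Pool.Agent.Helper29.CPB

open TensorProduct

universe u v

variable {F : Type u} [Field F] [CharZero F]

/-- the even part -/
noncomputable def evenP (X : Variety.{u, v} F) : Module.End F X.H :=
  ∑ i ∈ (Finset.Icc (0 : ℤ) (2 * X.dim)).filter Even, X.π i

lemma evenP_apply (X : Variety.{u, v} F) {i : ℤ} {x : X.H} (hx : X.π i x = x) :
    evenP X x = if Even i then x else 0 := X.evenPart_apply hx

/-- an operator which is `1` on the degrees of the parity of `p` and `0` on the others, is a block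
starting at `p ≤ 1` -/
lemma Block.start (X : Variety.{u, v} F) (p : ℕ) (hp : p ≤ 1) (R : Module.End F X.H)
    (hR : R ∈ X.corr 0)
    (h : ∀ (i : ℤ) (x : X.H), X.π i x = x → R x = if Even (i - p) then x else 0) :
    Block X p R := by
  refine ⟨hR, ?_, ?_, ?_, ?_⟩
  · apply X.ext_homog
    intro i x hx
    rw [Module.End.mul_apply]
    have h1 := h i x hx
    split_ifs at h1 with he
    · rw [h1, h1]
    · rw [h1, map_zero]
  · apply X.ext_homog
    intro i x hx
    rw [Module.End.mul_apply, Module.End.mul_apply, h i x hx,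
      h (i + 2) (X.L x) (X.corr_homog X.L_corr (by ring) hx)]
    have e : Even (i + 2 - p) ↔ Even (i - p) := by
      rw [show i + 2 - (p : ℤ) = (i - p) + 2 by ring, Int.even_add]
      simp
    by_cases he : Even (i - p)
    · rw [if_pos he, if_pos (e.mpr he)]
    · rw [if_neg he, if_neg (fun h => he (e.mp h)), map_zero]
  · intro j hj
    by_cases he : Even (j - p)
    · have : j < 0 ∨ 2 * (X.dim : ℤ) < j := by
        by_contra hc
        apply hj
        refine ⟨he, ?_, ?_⟩
        · obtain ⟨t, ht⟩ := he; omega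
        · obtain ⟨t, ht⟩ := he; omega
      rw [X.π_out j this, mul_zero]
    · ext x
      rw [Module.End.mul_apply, h j _ (X.π_apply_idem j x), if_neg he, LinearMap.zero_apply]
  · intro j hj he
    refine ⟨0, (X.corr _).zero_mem, ?_⟩
    intro x hx
    rw [h j x hx, if_pos he, sub_self, LinearMap.zero_apply]

lemma Block.eq_zero {X : Variety.{u, v} F} {i : ℕ} {R : Module.End F X.H} (B : Block X i R)
    (hi : X.dim < i) : R = 0 := by
  apply X.ext_graded
  intro j
  rw [zero_mul]
  apply B.supp
  rintro ⟨_, h1, h2⟩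
  omega

/-- the induction, given the step -/
lemma Block.induct (X : Variety.{u, v} F) (p : ℕ) (R₀ : Module.End F X.H) (B₀ : Block X p R₀)
    (hstep : ∀ (i : ℕ) (R : Module.End F X.H), i < X.dim → Block X i R →
      ∃ R', Block X (i + 2) R') (j : ℕ) (hj : j ≤ X.dim) (hev : Even ((j : ℤ) - p)) :
    ∃ θ ∈ X.corr ((j : ℤ) - X.dim), ∀ x, X.π j x = x → θ ((X.L ^ (X.dim - j)) x) = x := by
  have all : ∀ k : ℕ, ∃ R, Block X (p + 2 * k) R := by
    intro k
    induction k with
    | zero => exact ⟨R₀, by simpa using B₀⟩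
    | succ k ih =>
      obtain ⟨R, B⟩ := ih
      rw [show p + 2 * (k + 1) = p + 2 * k + 2 by ring]
      rcases lt_trichotomy (p + 2 * k) X.dim with h | h | h
      · exact hstep _ R h B
      · exact ⟨0, B.step_mid h⟩
      · refine ⟨0, (X.corr 0).zero_mem, by simp, by simp, fun j _ => by simp, ?_⟩
        intro j hj hev
        obtain ⟨θ, hθ, hinv⟩ := B.inv j hj (by
          have : ((j : ℤ) - (p + 2 * k : ℕ)) = ((j : ℤ) - (p + 2 * k + 2 : ℕ)) + 2 := by
            push_cast; ring
          rw [this]; exact hev.add even_two)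
        refine ⟨θ, hθ, ?_⟩
        intro x hx
        rw [hinv x hx, B.eq_zero h]
  obtain ⟨R, B⟩ := all (X.dim + 1)
  obtain ⟨θ, hθ, hinv⟩ := B.inv j hj (by
    have : ((j : ℤ) - (p + 2 * (X.dim + 1) : ℕ)) = ((j : ℤ) - p) + 2 * (-(X.dim + 1)) := by
      push_cast; ring
    rw [this]; exact hev.add (even_two_mul _))
  refine ⟨θ, hθ, ?_⟩
  intro x hx
  rw [hinv x hx, B.eq_zero (by omega), LinearMap.zero_apply, sub_zero]

/-- `C⁺(X)` and the step of the induction give `B(X)` -/
theorem lefschetz_of_step (X : Variety.{u, v} F) (hC : X.CPlus)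
    (hstep : ∀ (i : ℕ) (R : Module.End F X.H), i < X.dim → Block X i R →
      ∃ R', Block X (i + 2) R') : X.Lefschetz := by
  have hE : evenP X ∈ X.corr 0 := hC
  intro j hj
  rcases Nat.even_or_odd j with he | ho
  · refine Block.induct X 0 (evenP X) (Block.start X 0 (by norm_num) _ hE ?_) hstep j hj ?_
    · intro i x hx
      rw [evenP_apply X hx]
      simp
    · have : Even (j : ℤ) := by exact_mod_cast he
      simpa using this
  · refine Block.induct X 1 (1 - evenP X) (Block.start X 1 le_rfl _
      ((X.corr 0).sub_mem X.corr_one hE) ?_) hstep j hj ?_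
    · intro i x hx
      rw [LinearMap.sub_apply, Module.End.one_apply, evenP_apply X hx]
      have e : Even (i - (1 : ℕ)) ↔ ¬ Even i := by
        rw [Nat.cast_one, Int.even_sub]
        simp
      by_cases hi : Even i
      · rw [if_pos hi, if_neg (fun h => (e.mp h) hi), sub_self]
      · rw [if_neg hi, if_pos (e.mpr hi), sub_zero]
    · have : Odd (j : ℤ) := by exact_mod_cast ho
      have h1 : Even ((j : ℤ) - 1) := this.sub_odd odd_one
      simpa using h1

end Pool.Agent.Helper29.CPB
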