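import Pool.Agent.Helper29.CPB.Statement

/-!
# Working forms of the definitions
-/

namespace Pool.Agent.Helper29.CPB

open TensorProduct

universe u v

section

variable {F : Type u} [Field F]

namespace Variety

variable (X : Variety.{u, v} F)

/-- The group of algebraic self-correspondences of degree `r`. -/
def corr (r : ℤ) : AddSubgroup (Module.End F X.H) where
  carrier := {f | X.alg r f}
  zero_mem' := X.cycles.zero r
  add_mem' := fun {f g} hf hg => X.cycles.add r f g hf hg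
  neg_mem' := by
    intro f hf
    have h := X.cycles.smul (-1) r f hf
    rw [Rat.cast_neg, Rat.cast_one, neg_smul, one_smul] at h
    exact h

lemma mem_corr {r : ℤ} {f : Module.End F X.H} : f ∈ X.corr r ↔ X.alg r f := Iff.rfl

lemma π_idem (i : ℤ) : X.π i * X.π i = X.π i := X.grading.idem i

lemma π_orth (i j : ℤ) (h : i ≠ j) : X.π i * X.π j = 0 := X.grading.orth i j h

lemma π_out (i : ℤ) (h : i < 0 ∨ 2 * (X.dim : ℤ) < i) : X.π i = 0 := X.grading.out i h

lemma π_sum : ∑ i ∈ Finset.Icc (0 : ℤ) (2 * X.dim), X.π i = 1 := X.grading.sum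

lemma corr_smul (q : ℚ) (r : ℤ) (f : Module.End F X.H) (h : f ∈ X.corr r) :
    (q : F) • f ∈ X.corr r := X.cycles.smul q r f h

lemma corr_one : 1 ∈ X.corr 0 := X.cycles.one

lemma corr_mul (r s : ℤ) (f g : Module.End F X.H) (hf : f ∈ X.corr r) (hg : g ∈ X.corr s) :
    f * g ∈ X.corr (r + s) := X.cycles.mul r s f g hf hg

lemma corr_deg (r : ℤ) (f : Module.End F X.H) (hf : f ∈ X.corr r) (i : ℤ) :
    f * X.π i = X.π (i + 2 * r) * f := X.cycles.deg r f hf i

lemma corr_rat (f : Module.End F X.H) (hf : f ∈ X.corr 0) : ∃ q : ℚ,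
    LinearMap.trace F X.H (f * ∑ i ∈ Finset.Icc (0 : ℤ) (2 * X.dim),
      ((-1 : F) ^ i.natAbs) • X.π i) = q := X.cycles.rat f hf

lemma L_corr : X.L ∈ X.corr 1 := X.L_alg

lemma hard_inj (i : ℕ) (hi : i ≤ X.dim) (x : X.H) (hx : X.π i x = x)
    (h : (X.L ^ (X.dim - i)) x = 0) : x = 0 := X.hard.inj i hi x hx h

lemma hard_surj (i : ℕ) (hi : i ≤ X.dim) (y : X.H) (hy : X.π (2 * X.dim - i) y = y) :
    ∃ x, X.π i x = x ∧ (X.L ^ (X.dim - i)) x = y := X.hard.surj i hi y hy

/-- The parity operator: `(-1)^i` on `H^i`. -/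
noncomputable def sgn : Module.End F X.H :=
  ∑ i ∈ Finset.Icc (0 : ℤ) (2 * X.dim), ((-1 : F) ^ i.natAbs) • X.π i

end Variety

/-- Contraction (partial trace) of the second factor: `f ⊗ g ↦ tr(g) f`. -/
noncomputable def ptr₂ {V : Type v} [AddCommGroup V] [Module F V] [FiniteDimensional F V]
    (γ : Module.End F (V ⊗[F] V)) : Module.End F V :=
  TensorProduct.rid F (Module.End F V) (LinearMap.lTensor (Module.End F V)
    (LinearMap.trace F V) ((homTensorHomEquiv F V V V V).symm γ))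

/-- Contraction (partial trace) of the first factor: `f ⊗ g ↦ tr(f) g`. -/
noncomputable def ptr₁ {V : Type v} [AddCommGroup V] [Module F V] [FiniteDimensional F V]
    (γ : Module.End F (V ⊗[F] V)) : Module.End F V :=
  TensorProduct.lid F (Module.End F V) (LinearMap.rTensor (Module.End F V)
    (LinearMap.trace F V) ((homTensorHomEquiv F V V V V).symm γ))

/-- `SelfProduct` in terms of an isomorphism `τ : H(X) ⊗ H(X) ≃ H(Z)`, with explicit partial
traces. -/
structure IsSquare (X Z : Variety.{u, v} F) (τ : (X.H ⊗[F] X.H) ≃ₗ[F] Z.H) : Prop where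
  dim : Z.dim = 2 * X.dim
  grade : ∀ (i j : ℤ) (x y : X.H), X.π i x = x → X.π j y = y →
    Z.π (i + j) (τ (x ⊗ₜ y)) = τ (x ⊗ₜ y)
  polar : ∀ x y : X.H, Z.L (τ (x ⊗ₜ y)) = τ (X.L x ⊗ₜ y + x ⊗ₜ X.L y)
  prod : ∀ (r s : ℤ) (f g : Module.End F X.H), f ∈ X.corr r → g ∈ X.corr s →
    τ.conj (TensorProduct.map f g) ∈ Z.corr (r + s)
  contr₂ : ∀ (r : ℤ) (γ : Module.End F Z.H), γ ∈ Z.corr r →
    ptr₂ (τ.symm.conj γ * TensorProduct.map 1 X.sgn) ∈ X.corr r
  contr₁ : ∀ (r : ℤ) (γ : Module.End F Z.H), γ ∈ Z.corr r →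
    ptr₁ (τ.symm.conj γ * TensorProduct.map X.sgn 1) ∈ X.corr r

section ptr

variable {V : Type v} [AddCommGroup V] [Module F V] [FiniteDimensional F V]

lemma trace_ptr₂_mul (γ : Module.End F (V ⊗[F] V)) (v : Module.End F V) :
    LinearMap.trace F V (ptr₂ γ * v) =
      LinearMap.trace F (V ⊗[F] V) (γ * TensorProduct.map v 1) := by
  obtain ⟨t, rfl⟩ := (homTensorHomEquiv F V V V V).surjective γ
  unfold ptr₂
  rw [LinearEquiv.symm_apply_apply]
  induction t using TensorProduct.induction_on with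
  | zero => simp
  | tmul f g =>
    have e : (homTensorHomEquiv F V V V V) (f ⊗ₜ[F] g) =
        (TensorProduct.map f g : Module.End F (V ⊗[F] V)) := by
      simp [homTensorHomEquiv_apply]
    rw [e, ← TensorProduct.map_mul, mul_one, LinearMap.trace_tensorProduct']
    simp [mul_comm]
  | add a b ha hb =>
    simp only [map_add, add_mul] at ha hb ⊢
    rw [ha, hb]

lemma trace_ptr₁_mul (γ : Module.End F (V ⊗[F] V)) (v : Module.End F V) :
    LinearMap.trace F V (ptr₁ γ * v) =
      LinearMap.trace F (V ⊗[F] V) (γ * TensorProduct.map 1 v) := by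
  obtain ⟨t, rfl⟩ := (homTensorHomEquiv F V V V V).surjective γ
  unfold ptr₁
  rw [LinearEquiv.symm_apply_apply]
  induction t using TensorProduct.induction_on with
  | zero => simp
  | tmul f g =>
    have e : (homTensorHomEquiv F V V V V) (f ⊗ₜ[F] g) =
        (TensorProduct.map f g : Module.End F (V ⊗[F] V)) := by
      simp [homTensorHomEquiv_apply]
    rw [e, ← TensorProduct.map_mul, mul_one, LinearMap.trace_tensorProduct']
    simp
  | add a b ha hb =>
    simp only [map_add, add_mul] at ha hb ⊢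
    rw [ha, hb]

/-- the trace form is nondegenerate -/
lemma eq_of_trace_mul {θ θ' : Module.End F V}
    (h : ∀ v, LinearMap.trace F V (θ * v) = LinearMap.trace F V (θ' * v)) : θ = θ' := by
  apply LinearMap.ext
  intro x
  rw [← sub_eq_zero]
  by_contra hne
  obtain ⟨φ, hφ⟩ := Module.Projective.exists_dual_ne_zero F hne
  apply hφ
  have key : ∀ η : Module.End F V, LinearMap.trace F V (η * dualTensorHom F V V (φ ⊗ₜ x)) =
      φ (η x) := by
    intro η
    have e : η * dualTensorHom F V V (φ ⊗ₜ x) = dualTensorHom F V V (φ ⊗ₜ (η x)) := by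
      ext y
      simp
    rw [e, LinearMap.trace_eq_contract_apply]
    simp
  rw [map_sub, ← key θ, ← key θ', h, sub_self]

end ptr

lemma SelfProduct.isSquare {X Z : Variety.{u, v} F} {μ : X.H → X.H → Z.H}
    (h : SelfProduct X Z μ) : ∃ τ : (X.H ⊗[F] X.H) ≃ₗ[F] Z.H, IsSquare X Z τ := by
  obtain ⟨τ, hτ⟩ : ∃ τ : (X.H ⊗[F] X.H) ≃ₗ[F] Z.H, ∀ x y, τ (x ⊗ₜ y) = μ x y := by
    obtain ⟨B, hB, hBμ⟩ := h.kunneth.tensor
    refine ⟨hB.equiv, ?_⟩
    intro x y
    rw [IsTensorProduct.equiv_apply, TensorProduct.lift.tmul, hBμ]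
  refine ⟨τ, ?_⟩
  have hconj : ∀ (f g : Module.End F X.H), IsTensorMap μ f g (τ.conj
      (TensorProduct.map f g)) := by
    intro f g x y
    rw [← hτ, LinearEquiv.conj_apply_apply, LinearEquiv.symm_apply_apply, TensorProduct.map_tmul,
      hτ]
  have hunique : ∀ (f g : Module.End F X.H) (k : Module.End F Z.H), IsTensorMap μ f g k →
      k = τ.conj (TensorProduct.map f g) := by
    intro f g k hk
    apply LinearMap.ext
    intro z
    obtain ⟨t, rfl⟩ := τ.surjective z
    induction t using TensorProduct.induction_on with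
    | zero => simp
    | tmul x y => rw [hτ, hk x y, hconj f g x y]
    | add a b ha hb => rw [map_add, map_add, map_add, ha, hb]
  refine ⟨h.dim, ?_, ?_, ?_, ?_, ?_⟩
  · intro i j x y hx hy
    rw [hτ]
    exact h.kunneth.grade i j x y hx hy
  · intro x y
    rw [hτ, map_add, hτ, hτ]
    exact h.kunneth.polar x y
  · intro r s f g hf hg
    obtain ⟨k, hk, hk2⟩ := h.cycles.prod r s f g hf hg
    rw [← hunique f g k hk2]
    exact hk
  · intro r γ hγ
    obtain ⟨θ, hθ, hθ2⟩ := h.cycles.contr₂ r γ hγ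
    have : ptr₂ (τ.symm.conj γ * TensorProduct.map 1 X.sgn) = θ := by
      apply eq_of_trace_mul
      intro v
      have h1 := hθ2 v _ (hconj v X.sgn)
      have h2 : LinearMap.trace F Z.H (γ * τ.conj (TensorProduct.map v X.sgn)) =
          LinearMap.trace F (X.H ⊗[F] X.H) (τ.symm.conj γ * TensorProduct.map v X.sgn) := by
        rw [← LinearMap.trace_conj' _ τ.symm]
        congr 1
        apply LinearMap.ext
        intro t
        simp [LinearEquiv.conj_apply_apply]
      have h3 : (TensorProduct.map 1 X.sgn : Module.End F (X.H ⊗[F] X.H)) *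
          TensorProduct.map v 1 = TensorProduct.map v X.sgn := by
        rw [← TensorProduct.map_mul, one_mul, mul_one]
      rw [trace_ptr₂_mul, mul_assoc, h3]
      exact (h1.trans h2).symm
    rw [this]
    exact hθ
  · intro r γ hγ
    obtain ⟨θ, hθ, hθ2⟩ := h.cycles.contr₁ r γ hγ
    have : ptr₁ (τ.symm.conj γ * TensorProduct.map X.sgn 1) = θ := by
      apply eq_of_trace_mul
      intro v
      have h1 := hθ2 v _ (hconj X.sgn v)
      have h2 : LinearMap.trace F Z.H (γ * τ.conj (TensorProduct.map X.sgn v)) =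
          LinearMap.trace F (X.H ⊗[F] X.H) (τ.symm.conj γ * TensorProduct.map X.sgn v) := by
        rw [← LinearMap.trace_conj' _ τ.symm]
        congr 1
        apply LinearMap.ext
        intro t
        simp [LinearEquiv.conj_apply_apply]
      have h3 : (TensorProduct.map X.sgn 1 : Module.End F (X.H ⊗[F] X.H)) *
          TensorProduct.map 1 v = TensorProduct.map X.sgn v := by
        rw [← TensorProduct.map_mul, one_mul, mul_one]
      rw [trace_ptr₁_mul, mul_assoc, h3]
      exact (h1.trans h2).symm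
    rw [this]
    exact hθ

/-! ### Generic sections -/

namespace GenericSection

variable {Z S : Variety.{u, v} F} {s : ℕ} (G : GenericSection Z S s)

lemma up_deg (i : ℤ) : G.up ∘ₗ Z.π i = S.π i ∘ₗ G.up := by
  ext x; exact G.maps.up_deg i x

lemma dn_deg (i : ℤ) : G.dn ∘ₗ S.π i = Z.π (i + 2 * s) ∘ₗ G.dn := by
  ext x; exact G.maps.dn_deg i x

lemma dn_up : G.dn ∘ₗ G.up = ((G.m : F) ^ s) • Z.L ^ s := by
  ext x; exact G.maps.dn_up x

lemma weak_inj (i : ℤ) (hi : i ≤ S.dim) (x : Z.H) (hx : Z.π i x = x) (h : G.up x = 0) : x = 0 :=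
  G.weak.inj i hi x hx h

lemma weak_surj (i : ℤ) (hi : S.dim ≤ i) (x : Z.H) (hx : Z.π (i + 2 * s) x = x) :
    ∃ y, G.dn y = x := G.weak.surj i hi x hx

lemma weak_onto (i : ℤ) (hi : i < S.dim) (y : S.H) (hy : S.π i y = y) : ∃ x, G.up x = y :=
  G.weak.onto i hi y hy

lemma weak_mono (i : ℤ) (hi : S.dim < i) (y : S.H) (hy : S.π i y = y) (h : G.dn y = 0) : y = 0 :=
  G.weak.mono i hi y hy h

lemma restrict (γ : Module.End F Z.H) (hγ : γ ∈ Z.corr (-s)) :
    G.up ∘ₗ γ ∘ₗ G.dn ∈ S.corr 0 := by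
  obtain ⟨f, hf, hf2⟩ := G.incidence.restrict γ hγ
  have : G.up ∘ₗ γ ∘ₗ G.dn = f := by
    ext y; exact (hf2 y).symm
  rw [this]
  exact hf

lemma vanishing : ∃ e, e ≠ 0 ∧ S.π S.dim e = e ∧ G.dn e = 0 := G.weak.vanishing

/-- `CH^d(S × S)` is generated by the restriction of `CH^d(Z × Z)` and the diagonal -/
lemma generic : ∀ f ∈ S.corr 0, ∃ γ ∈ Z.corr (-s), ∃ c : ℚ,
    f = G.up ∘ₗ γ ∘ₗ G.dn + (c : F) • 1 := by
  intro f hf
  obtain ⟨z, rfl⟩ := G.incidence.closure f hf
  obtain ⟨z', h1, γ, hγ, h2⟩ := G.incidence.bundle (G.incidence.res z)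
  obtain ⟨c, hc⟩ := G.incidence.localisation (z - z') (by rw [map_sub, h1, sub_self])
  refine ⟨γ, hγ, c, ?_⟩
  have h3 : G.incidence.fib z' = G.up ∘ₗ γ ∘ₗ G.dn := LinearMap.ext h2
  rw [← h3, ← hc, G.incidence.fib_sub]
  abel

end GenericSection

/-- The input from a generic section of odd codimension `s`: an algebraic operator which, in the
outer degrees, is inverse to `L^s` on the even cohomology and zero on the odd cohomology. -/
def EvenInverse (Z : Variety.{u, v} F) (s : ℕ) : Prop :=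
  ∃ γ ∈ Z.corr (-s),
    (∀ j : ℤ, j + s ≤ Z.dim → ∀ z, Z.π j z = z → γ ((Z.L ^ s) z) = if Even j then z else 0) ∧
    (∀ j : ℤ, (Z.dim : ℤ) + s ≤ j → ∀ z, Z.π j z = z →
      (Z.L ^ s) (γ z) = if Even j then z else 0)

/-- The weaker form used in the first version of the proof. -/
def Half (Z : Variety.{u, v} F) (s : ℕ) : Prop :=
  ∃ γ ∈ Z.corr (-s),
    (∀ j : ℤ, Even j → j + s + 1 ≤ Z.dim → ∀ z, Z.π j z = z → γ ((Z.L ^ s) z) = z) ∧
    (∀ j : ℤ, Even j → (Z.dim : ℤ) + s + 1 ≤ j → ∀ z, Z.π j z = z → (Z.L ^ s) (γ z) = z)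

end

end Pool.Agent.Helper29.CPB
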