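import Mathlib

/-!
# Polarised varieties, algebraic self-correspondences, squares and generic sections

The definitions used in the statement. A `Variety` is a polarised variety `X` (smooth projective,
geometrically connected, over a perfect field `k`) as seen by a Weil cohomology with coefficient
field `F` (l-adic or Betti cohomology; for de Rham or crystalline cohomology extend the coefficients
to those of a big field containing all the fields in play).
-/

namespace Pool.Agent.Helper29.CPB

universe u v

section Linear

variable {F : Type u} [Field F] {V W : Type v} [AddCommGroup V] [Module F V] [AddCommGroup W]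
  [Module F W]

/-- `π i` is the projector onto the piece `H^i` of a graded space with degrees `0, ..., 2n`. -/
structure IsGrading (n : ℕ) (π : ℤ → Module.End F V) : Prop where
  idem : ∀ i, π i * π i = π i
  orth : ∀ i j, i ≠ j → π i * π j = 0
  out : ∀ i : ℤ, i < 0 ∨ 2 * (n : ℤ) < i → π i = 0
  sum : ∑ i ∈ Finset.Icc (0 : ℤ) (2 * n), π i = 1

/-- The parity operator: `(-1)^i` on `H^i`. -/
noncomputable def parity (n : ℕ) (π : ℤ → Module.End F V) : Module.End F V :=
  ∑ i ∈ Finset.Icc (0 : ℤ) (2 * n), ((-1 : F) ^ i.natAbs) • π i

/-- The trace. -/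
noncomputable def tr (f : Module.End F V) : F := LinearMap.trace F V f

/-- The formal properties of the operators `H^* → H^(*+2r)` given by the algebraic
self-correspondences of degree `r` (`alg r f`): they form a `ℚ`-space, contain the diagonal, and are
stable under composition. The last property is the Lefschetz trace formula: the alternating trace of
a correspondence of degree `0` is an intersection number, hence rational. -/
structure IsCorr (n : ℕ) (π : ℤ → Module.End F V) (alg : ℤ → Module.End F V → Prop) : Prop where
  zero : ∀ r, alg r 0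
  add : ∀ r f g, alg r f → alg r g → alg r (f + g)
  smul : ∀ (q : ℚ) r f, alg r f → alg r ((q : F) • f)
  one : alg 0 1
  mul : ∀ r s f g, alg r f → alg s g → alg (r + s) (f * g)
  deg : ∀ r f, alg r f → ∀ i, f * π i = π (i + 2 * r) * f
  rat : ∀ f, alg 0 f → ∃ q : ℚ, tr (f * parity n π) = q

/-- The hard Lefschetz theorem: `L^(n-i) : H^i → H^(2n-i)` is bijective for `i ≤ n`. -/
structure HardLefschetz (n : ℕ) (π : ℤ → Module.End F V) (L : Module.End F V) : Prop where
  inj : ∀ i : ℕ, i ≤ n → ∀ x, π i x = x → (L ^ (n - i)) x = 0 → x = 0
  surj : ∀ i : ℕ, i ≤ n → ∀ y, π (2 * n - i) y = y → ∃ x, π i x = x ∧ (L ^ (n - i)) x = y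

/-- `μ` is bilinear and makes `W` the tensor product of `V` with itself. -/
def IsTensor (F : Type u) [Field F] {V W : Type v} [AddCommGroup V] [Module F V] [AddCommGroup W]
    [Module F W] (μ : V → V → W) : Prop :=
  ∃ B : V →ₗ[F] V →ₗ[F] W, IsTensorProduct B ∧ ∀ x y, B x y = μ x y

/-- The Künneth formula for `Z = X × X`, with cohomology `W` and `V`: the exterior product
`μ x y = x × y` makes `W` the tensor product of `V` with itself, it has degree `i + j` for `x` in
`H^i` and `y` in `H^j`, and the Lefschetz operator of the product polarisation is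
`L ⊗ 1 + 1 ⊗ L`. -/
structure IsKunneth (π : ℤ → Module.End F V) (L : Module.End F V) (πZ : ℤ → Module.End F W)
    (LZ : Module.End F W) (μ : V → V → W) : Prop where
  tensor : IsTensor F μ
  grade : ∀ (i j : ℤ) (x y : V), π i x = x → π j y = y → πZ (i + j) (μ x y) = μ x y
  polar : ∀ x y : V, LZ (μ x y) = μ (L x) y + μ x (L y)

/-- `h` is the operator `f ⊗ g`. -/
def IsTensorMap (μ : V → V → W) (f g : Module.End F V) (h : Module.End F W) : Prop :=
  ∀ x y, h (μ x y) = μ (f x) (g y)

/-- Exterior products and contractions of algebraic correspondences are algebraic. The contraction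
`θ` of a self-correspondence `γ` of `X × X` along the diagonal of the second factor is the partial
supertrace: it is characterised by `tr (θ v) = tr (γ (v ⊗ ε))` for all `v`, where `ε` is the parity
operator. -/
structure IsCorrProduct (alg : ℤ → Module.End F V → Prop) (ε : Module.End F V)
    (algZ : ℤ → Module.End F W → Prop) (μ : V → V → W) : Prop where
  prod : ∀ r s f g, alg r f → alg s g → ∃ h, algZ (r + s) h ∧ IsTensorMap μ f g h
  contr₂ : ∀ r γ, algZ r γ → ∃ θ, alg r θ ∧ ∀ v h, IsTensorMap μ v ε h →
    tr (θ * v) = tr (γ * h)
  contr₁ : ∀ r γ, algZ r γ → ∃ θ, alg r θ ∧ ∀ v h, IsTensorMap μ ε v h →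
    tr (θ * v) = tr (γ * h)

/-- The restriction `up` and the Gysin map `dn` for a smooth complete intersection `S`, of
codimension `s`, of members of `|mL|` in `Z` (cohomology `V` of `Z`, `W` of `S`): degrees and
projection formula. -/
structure SectionMaps (π : ℤ → Module.End F V) (L : Module.End F V) (πS : ℤ → Module.End F W)
    (s m : ℕ) (up : V →ₗ[F] W) (dn : W →ₗ[F] V) : Prop where
  up_deg : ∀ i x, up (π i x) = πS i (up x)
  dn_deg : ∀ i y, dn (πS i y) = π (i + 2 * s) (dn y)
  dn_up : ∀ x, dn (up x) = ((m : F) ^ s) • (L ^ s) x

/-- The weak Lefschetz theorem for `S`, of dimension `d` and codimension `s` in `Z`: the restriction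
`up` is injective in degrees `≤ d` and surjective in degrees `< d`, the Gysin map `dn` is surjective
in degrees `≥ d` and injective in degrees `> d`; moreover there is a vanishing class `e ≠ 0` in
`H^d(S)`. -/
structure WeakLefschetz (π : ℤ → Module.End F V) (πS : ℤ → Module.End F W)
    (d s : ℕ) (up : V →ₗ[F] W) (dn : W →ₗ[F] V) : Prop where
  inj : ∀ i : ℤ, i ≤ d → ∀ x, π i x = x → up x = 0 → x = 0
  onto : ∀ i : ℤ, i < d → ∀ y, πS i y = y → ∃ x, up x = y
  surj : ∀ i : ℤ, d ≤ i → ∀ x, π (i + 2 * s) x = x → ∃ y, dn y = x
  mono : ∀ i : ℤ, d < i → ∀ y, πS i y = y → dn y = 0 → y = 0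
  vanishing : ∃ e, e ≠ 0 ∧ πS d e = e ∧ dn e = 0

/-- The cycles on `S × S`, for the generic complete intersection `S` of `Z` (see `GenericSection`),
of dimension `d`: let `𝒮 → P` be the universal complete intersection, with generic fibre `S`, and
let `U ⊆ 𝒮 ×_P 𝒮` be the complement of the diagonal, which is the part over the complement of the
diagonal of `Z × Z`. -/
structure Incidence (algZ : Module.End F V → Prop) (algS : Module.End F W → Prop)
    (up : V →ₗ[F] W) (dn : W →ₗ[F] V) where
  /-- `CH^d(𝒮 ×_P 𝒮) ⊗ ℚ` -/
  Total : Type v
  [instTotal : AddCommGroup Total]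
  /-- restriction to the generic fibre `S × S`, followed by the action on cohomology -/
  fib : Total → Module.End F W
  fib_sub : ∀ z z', fib (z - z') = fib z - fib z'
  /-- pull-back of cycles along `S × S → Z × Z` -/
  restrict : ∀ γ, algZ γ → ∃ f, algS f ∧ ∀ y, f y = up (γ (dn y))
  /-- a cycle on the generic fibre is the restriction of its closure -/
  closure : ∀ f, algS f → ∃ z, fib z = f
  /-- `CH^d(U) ⊗ ℚ` -/
  OpenPart : Type v
  [instOpen : AddCommGroup OpenPart]
  /-- restriction to `U` -/
  res : Total →+ OpenPart
  /-- localisation sequence: the kernel of the restriction to `U` is generated by the diagonal,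
  which is irreducible of codimension `d` -/
  localisation : ∀ z, res z = 0 → ∃ c : ℚ, fib z = (c : F) • 1
  /-- projective bundle formula: `U` is a fibre product of projective bundles over the complement
  of the diagonal in `Z × Z` and the tautological classes come from `P`; hence every class on `U`
  extends to a class which on the generic fibre is the restriction of a cycle on `Z × Z` -/
  bundle : ∀ u, ∃ z, res z = u ∧ ∃ γ, algZ γ ∧ ∀ y, fib z y = up (γ (dn y))

attribute [instance] Incidence.instTotal Incidence.instOpen

end Linear

/-- A polarised variety as seen by a Weil cohomology with coefficient field `F`. -/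
structure Variety (F : Type u) [Field F] where
  /-- the dimension -/
  dim : ℕ
  /-- the total cohomology -/
  H : Type v
  [instGroup : AddCommGroup H]
  [instModule : Module F H]
  [instFinite : FiniteDimensional F H]
  /-- the projector onto `H^i` -/
  π : ℤ → Module.End F H
  /-- `alg r f`: the operator `f` is given by an algebraic self-correspondence of degree `r` over
  `k`, that is by an element of `CH^(dim+r)(X × X) ⊗ ℚ` -/
  alg : ℤ → Module.End F H → Prop
  /-- the Lefschetz operator: cup product with the polarisation -/
  L : Module.End F H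
  grading : IsGrading dim π
  cycles : IsCorr dim π alg
  L_alg : alg 1 L
  hard : HardLefschetz dim π L

attribute [instance] Variety.instGroup Variety.instModule Variety.instFinite

variable {F : Type u} [Field F]

/-- The sign conjecture `C⁺(X)`: the projector onto the even cohomology is algebraic. -/
def Variety.CPlus (X : Variety.{u, v} F) : Prop :=
  X.alg 0 (∑ i ∈ (Finset.Icc (0 : ℤ) (2 * X.dim)).filter Even, X.π i)

/-- The Künneth standard conjecture `C(X)`: all the projectors `π i` are algebraic. -/
def Variety.Kunneth (X : Variety.{u, v} F) : Prop :=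
  ∀ i, X.alg 0 (X.π i)

/-- The Lefschetz standard conjecture `B(X)`: for every `i ≤ dim X` some algebraic correspondence
induces the inverse of `L^(dim-i) : H^i → H^(2dim-i)`. -/
def Variety.Lefschetz (X : Variety.{u, v} F) : Prop :=
  ∀ i : ℕ, i ≤ X.dim → ∃ θ, X.alg (i - X.dim) θ ∧ ∀ x, X.π i x = x →
    θ ((X.L ^ (X.dim - i)) x) = x

/-- Some algebraic correspondence is a left inverse of `L^c` on all `H^j(X)`, `j ≤ dim X - c`. -/
def Variety.LeftInverse (X : Variety.{u, v} F) (c : ℕ) : Prop :=
  ∃ w, X.alg (-c) w ∧ ∀ j : ℤ, j ≤ X.dim - c → ∀ x, X.π j x = x → w ((X.L ^ c) x) = x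

/-- `Z = X × X`, with the product polarisation. -/
structure SelfProduct (X Z : Variety.{u, v} F) (μ : X.H → X.H → Z.H) : Prop where
  dim : Z.dim = 2 * X.dim
  kunneth : IsKunneth X.π X.L Z.π Z.L μ
  cycles : IsCorrProduct X.alg (parity X.dim X.π) Z.alg μ

/-- `S` is a generic complete intersection of codimension `s < dim Z` in `Z`, where `Z` is defined
over `k`: the intersection of the `s` generic members of `|mL|`, `m` large (in particular `mL` very
ample), over the perfect closure `K` of the function field of the parameter space `P = |mL|^s`. Here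
`Z` and `Z_K` have the same cohomology `Z.H`, and `Z.alg` refers to the cycles over `k`. -/
structure GenericSection (Z S : Variety.{u, v} F) (s : ℕ) where
  dim : S.dim + s = Z.dim
  /-- restriction -/
  up : Z.H →ₗ[F] S.H
  /-- Gysin map -/
  dn : S.H →ₗ[F] Z.H
  /-- the degree of the hypersurfaces -/
  m : ℕ
  m_pos : 0 < m
  maps : SectionMaps Z.π Z.L S.π s m up dn
  weak : WeakLefschetz Z.π S.π S.dim s up dn
  /-- the cycles on `S × S` -/
  incidence : Incidence (Z.alg (-s)) (S.alg 0) up dn

end Pool.Agent.Helper29.CPB
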